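import Pool.Agent.H.MP_290264_an.A

namespace Pool.Agent.Results.MP_290264_an.No

open Pool.Agent.H.MP_290264_an

theorem result : ∃ (G : Type) (_ : Group G),
    ¬ Amenable G ∧ ∀ R : Set G, MeasRec R → TopRec R :=
  ⟨GG, inferInstance, not_amenable, rec_imp⟩

end Pool.Agent.Results.MP_290264_an.No
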